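import Pool.Agent.Y871.LW.Stm
import Pool.Agent.Helper256.KM.Mertens

/-!
# Project LW, (POLY): prime values of polynomials in short windows (helper497)
-/

set_option autoImplicit false

open Finset

namespace Pool.Agent.Y497.LW

open Pool.Agent.Y843.HS Pool.Agent.Y871.LW

/-- upper bound for the sieve product with one class for every prime -/
theorem VV_le : ∃ C : ℝ, 0 < C ∧ ∃ X₀ : ℕ, ∀ X : ℕ, X₀ ≤ X → ∀ Z : ℕ → Finset ℕ,
    (∀ p : ℕ, (Z p).card = 1) → 0 ≤ VV Z 0 ⌊(X : ℝ) ^ (1 / 2 : ℝ)⌋₊ ∧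
      VV Z 0 ⌊(X : ℝ) ^ (1 / 2 : ℝ)⌋₊ ≤ C / Real.log X := by
  obtain ⟨C, hC⟩ := Pool.Agent.Helper256.KM.mertens_inv
  refine ⟨4 * Real.exp C, by positivity, 16, fun X hX Z hZ => ?_⟩
  have hXr : (16 : ℝ) ≤ X := by exact_mod_cast hX
  obtain ⟨s, hs⟩ : ∃ s : ℝ, s = (X : ℝ) ^ (1 / 4 : ℝ) := ⟨_, rfl⟩
  have hs2 : 2 ≤ s := by
    rw [hs]
    have h16 : (2 : ℝ) = (16 : ℝ) ^ (1 / 4 : ℝ) := by
      rw [show (16 : ℝ) = 2 ^ (4 : ℝ) by norm_num, ← Real.rpow_mul (by norm_num)]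
      norm_num
    rw [h16]
    exact Real.rpow_le_rpow (by norm_num) hXr (by norm_num)
  have hss : (X : ℝ) ^ (1 / 2 : ℝ) = s ^ 2 := by
    rw [hs, ← Real.rpow_natCast, ← Real.rpow_mul (by positivity)]
    norm_num
  obtain ⟨y, hy⟩ : ∃ y : ℕ, y = ⌊(X : ℝ) ^ (1 / 2 : ℝ)⌋₊ := ⟨_, rfl⟩
  have hy0 : s ^ 2 < y + 1 := by
    rw [← hss, hy]
    exact Nat.lt_floor_add_one _
  have hy1 : s ≤ y := by nlinarith
  have hy3 : 3 ≤ y := by
    have h1 : (3 : ℝ) < y := by nlinarith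
    exact_mod_cast h1.le
  rw [← hy]
  have hpos : ∀ p ∈ Pr 0 y, 0 ≤ 1 - ((Z p).card : ℝ) / p := by
    intro p hp
    rw [hZ]
    have h1 : (1 : ℝ) ≤ p := by exact_mod_cast (mem_filter.1 hp).2.one_lt.le
    have h2 : ((1 : ℕ) : ℝ) / p ≤ 1 := by
      rw [div_le_one (by linarith)]
      push_cast
      exact h1
    linarith
  have h1 : VV Z 0 y ≤ Real.exp (-∑ p ∈ Pr 0 y, (1 : ℝ) / p) := by
    unfold VV
    rw [← sum_neg_distrib, Real.exp_sum]
    refine prod_le_prod hpos (fun p hp => ?_)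
    rw [hZ]
    have := Real.add_one_le_exp (-((1 : ℝ) / p))
    push_cast
    linarith
  have h2 : Pr 0 y = (Icc 1 y).filter Nat.Prime := by
    ext p
    unfold Pr
    rw [mem_filter, mem_filter, mem_Ioc, mem_Icc]
    constructor
    · rintro ⟨h, h'⟩
      exact ⟨by omega, h'⟩
    · rintro ⟨h, h'⟩
      exact ⟨by omega, h'⟩
  have h3 := (abs_le.1 (hC y hy3)).1
  rw [← h2] at h3
  have hls : Real.log s = 1 / 4 * Real.log X := by
    rw [hs, Real.log_rpow (by positivity)]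
  have hlX : 0 < Real.log X := Real.log_pos (by linarith)
  have hly : Real.log s ≤ Real.log y := Real.log_le_log (by linarith) hy1
  have hly0 : 0 < Real.log y := by rw [hls] at hly; linarith
  refine ⟨prod_nonneg hpos, h1.trans ?_⟩
  calc Real.exp (-∑ p ∈ Pr 0 y, (1 : ℝ) / p) ≤ Real.exp (C - Real.log (Real.log y)) :=
        Real.exp_le_exp.2 (by linarith)
    _ = Real.exp C / Real.log y := by rw [Real.exp_sub, Real.exp_log hly0]
    _ ≤ Real.exp C / (1 / 4 * Real.log X) := by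
        refine div_le_div_of_nonneg_left (Real.exp_pos _).le (by linarith) ?_
        rw [← hls]
        exact hly
    _ = 4 * Real.exp C / Real.log X := by
        field_simp

/-- the number of classes on which a polynomial is in a given class -/
theorem roots_le (F : Polynomial ℤ) (hF : 1 ≤ F.natDegree) (p : ℕ) (hp : p.Prime)
    (hlc : F.leadingCoeff.natAbs < p) (m c1 N : ℕ) (φ : ℕ → ℕ)
    (hφ : ∀ i ∈ Icc 1 N, (φ i : ℤ) = F.eval ((m + i : ℕ) : ℤ) + c1) (c : ℕ) :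
    (((Icc 1 N).filter (fun i => φ i % p = c)).image (fun i => i % p)).card ≤ F.natDegree := by
  classical
  have := Fact.mk hp
  obtain ⟨G, hG⟩ : ∃ G : Polynomial (ZMod p), G = F.map (Int.castRingHom (ZMod p)) +
    Polynomial.C ((c1 : ZMod p) - c) := ⟨_, rfl⟩
  have hlc0 : F.leadingCoeff ≠ 0 := by
    intro h
    rw [Polynomial.leadingCoeff_eq_zero] at h
    rw [h] at hF
    simp at hF
  have hco : G.coeff F.natDegree ≠ 0 := by
    rw [hG, Polynomial.coeff_add, Polynomial.coeff_map, Polynomial.coeff_C, if_neg (by omega),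
      add_zero]
    intro h
    have h1 : ((F.leadingCoeff : ℤ) : ZMod p) = 0 := h
    rw [ZMod.intCast_zmod_eq_zero_iff_dvd] at h1
    have h2 := Int.natAbs_dvd_natAbs.2 h1
    rw [Int.natAbs_natCast] at h2
    have h3 := Nat.le_of_dvd (Int.natAbs_pos.2 hlc0) h2
    omega
  have hG0 : G ≠ 0 := by
    intro h
    rw [h] at hco
    simp at hco
  have hdeg : G.natDegree ≤ F.natDegree := by
    rw [hG, Polynomial.natDegree_add_C]
    exact Polynomial.natDegree_map_le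
  refine le_trans ?_ ((Multiset.toFinset_card_le _).trans ((Polynomial.card_roots' G).trans hdeg))
  refine card_le_card_of_injOn (fun r => ((m + r : ℕ) : ZMod p)) ?_ ?_
  · intro r hr
    rw [mem_coe, mem_image] at hr
    obtain ⟨i, hi, rfl⟩ := hr
    rw [mem_filter] at hi
    rw [mem_coe, Multiset.mem_toFinset, Polynomial.mem_roots hG0, Polynomial.IsRoot.def, hG,
      Polynomial.eval_add, Polynomial.eval_C]
    have h1 : ((m + i % p : ℕ) : ZMod p) = ((m + i : ℕ) : ZMod p) := by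
      push_cast
      rw [ZMod.natCast_mod]
    have h2 := congrArg (fun z : ℤ => (z : ZMod p)) (hφ i hi.1)
    simp only [Int.cast_natCast, Int.cast_add] at h2
    have h3 : ((φ i : ℕ) : ZMod p) = (c : ZMod p) := by
      rw [← hi.2, ZMod.natCast_mod]
    have h4 : Polynomial.eval (((m + i : ℕ) : ZMod p)) (F.map (Int.castRingHom (ZMod p))) =
        ((F.eval ((m + i : ℕ) : ℤ) : ℤ) : ZMod p) := by
      have := Polynomial.eval_intCast_map (Int.castRingHom (ZMod p)) F ((m + i : ℕ) : ℤ)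
      simpa using this
    simp only
    rw [h1, h4]
    rw [h3] at h2
    rw [h2]
    ring
  · intro a ha b hb hab
    rw [mem_coe, mem_image] at ha hb
    obtain ⟨i, -, rfl⟩ := ha
    obtain ⟨j, -, rfl⟩ := hb
    simp only at hab
    rw [ZMod.natCast_eq_natCast_iff] at hab
    have h1 : i % p ≡ j % p [MOD p] := Nat.ModEq.add_left_cancel' m hab
    have h2 : (i % p) % p = (j % p) % p := h1
    rwa [Nat.mod_mod, Nat.mod_mod] at h2

/-- congruences -/
theorem phi_modEq (F : Polynomial ℤ) (m c1 N : ℕ) (φ : ℕ → ℕ)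
    (hφ : ∀ i ∈ Icc 1 N, (φ i : ℤ) = F.eval ((m + i : ℕ) : ℤ) + c1) (M : ℕ) :
    ∀ i ∈ Icc 1 N, ∀ j ∈ Icc 1 N, i ≡ j [MOD M] → φ i ≡ φ j [MOD M] := by
  intro i hi j hj hij
  rw [Nat.modEq_iff_dvd] at hij ⊢
  rw [hφ i hi, hφ j hj]
  have h1 := Polynomial.sub_dvd_eval_sub ((m + j : ℕ) : ℤ) ((m + i : ℕ) : ℤ) F
  have h2 : ((m + j : ℕ) : ℤ) - ((m + i : ℕ) : ℤ) = (j : ℤ) - i := by push_cast; ring
  rw [h2] at h1
  have h3 : Polynomial.eval ((m + j : ℕ) : ℤ) F + (c1 : ℤ) -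
      (Polynomial.eval ((m + i : ℕ) : ℤ) F + c1) =
      Polynomial.eval ((m + j : ℕ) : ℤ) F - Polynomial.eval ((m + i : ℕ) : ℤ) F := by ring
  rw [h3]
  exact hij.trans h1

/-- few vectors of the box have a small value at `l` -/
theorem small_one {q : ℕ} (A : Fin q → ℤ) (Xs : Fin q → ℕ) (X y : ℕ) (l : Fin q)
    (hX : X ≤ Xs l) (v : ℤ) :
    X * ((Fintype.piFinset fun l => Ioc (A l) (A l + Xs l)).filter
      (fun a => (v + a l).natAbs ≤ y)).card ≤ (2 * y + 1) * ∏ l, Xs l := by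
  classical
  have h1 : (Fintype.piFinset fun l => Ioc (A l) (A l + Xs l)).filter
      (fun a => (v + a l).natAbs ≤ y) ⊆
      Fintype.piFinset fun l' => if l' = l then Icc (-v - y) (-v + y) else
        Ioc (A l') (A l' + Xs l') := by
    intro a ha
    rw [mem_filter, Fintype.mem_piFinset] at ha
    rw [Fintype.mem_piFinset]
    intro l'
    by_cases h : l' = l
    · rw [if_pos h, h, mem_Icc]
      have := ha.2
      omega
    · rw [if_neg h]
      exact ha.1 l'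
  have h2 := card_le_card h1
  rw [Fintype.card_piFinset] at h2
  have h3 : ∏ l' : Fin q, (if l' = l then Icc (-v - y) (-v + y) else
        Ioc (A l') (A l' + Xs l')).card = (2 * y + 1) * ∏ l' ∈ univ.erase l, Xs l' := by
    rw [← mul_prod_erase univ _ (mem_univ l)]
    congr 1
    · rw [if_pos rfl, Int.card_Icc]
      omega
    · refine prod_congr rfl fun l' hl' => ?_
      rw [if_neg (mem_erase.1 hl').1, Int.card_Ioc]
      omega
  rw [h3] at h2
  calc X * _ ≤ X * ((2 * y + 1) * ∏ l' ∈ univ.erase l, Xs l') := Nat.mul_le_mul_left _ h2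
    _ ≤ Xs l * ((2 * y + 1) * ∏ l' ∈ univ.erase l, Xs l') := Nat.mul_le_mul_right _ hX
    _ = (2 * y + 1) * (Xs l * ∏ l' ∈ univ.erase l, Xs l') := by ring
    _ = _ := by rw [mul_prod_erase univ Xs (mem_univ l)]

/-- few pairs have a small value -/
theorem small_all {q : ℕ} (A : Fin q → ℤ) (Xs : Fin q → ℕ) (X y : ℕ)
    (hX : ∀ l, X ≤ Xs l) (W : Finset ℕ) (v : Fin q → ℕ → ℤ) :
    X * ∑ a ∈ Fintype.piFinset fun l => Ioc (A l) (A l + Xs l),
      (W.filter (fun n => ∃ l, (v l n + a l).natAbs ≤ y)).card ≤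
      W.card * (q * ((2 * y + 1) * ∏ l, Xs l)) := by
  classical
  have h1 : ∑ a ∈ Fintype.piFinset fun l => Ioc (A l) (A l + Xs l),
      (W.filter (fun n => ∃ l, (v l n + a l).natAbs ≤ y)).card =
      ∑ n ∈ W, ((Fintype.piFinset fun l => Ioc (A l) (A l + Xs l)).filter
        (fun a => ∃ l, (v l n + a l).natAbs ≤ y)).card := by
    simp_rw [card_filter]
    exact sum_comm
  rw [h1, mul_sum]
  refine (sum_le_card_nsmul W _ (q * ((2 * y + 1) * ∏ l, Xs l)) fun n _ => ?_).trans_eq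
    (smul_eq_mul _ _)
  have h2 : (Fintype.piFinset fun l => Ioc (A l) (A l + Xs l)).filter
        (fun a => ∃ l, (v l n + a l).natAbs ≤ y) ⊆
      univ.biUnion fun l => (Fintype.piFinset fun l => Ioc (A l) (A l + Xs l)).filter
        (fun a => (v l n + a l).natAbs ≤ y) := by
    intro a ha
    rw [mem_filter] at ha
    obtain ⟨h, l, hl⟩ := ha
    rw [mem_biUnion]
    exact ⟨l, mem_univ l, mem_filter.2 ⟨h, hl⟩⟩
  have h3 := (card_le_card h2).trans card_biUnion_le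
  refine (Nat.mul_le_mul_left X h3).trans ?_
  rw [mul_sum]
  refine (sum_le_card_nsmul univ _ ((2 * y + 1) * ∏ l, Xs l) fun l _ =>
    small_one A Xs X y l (hX l) _).trans_eq ?_
  rw [smul_eq_mul, card_univ, Fintype.card_fin]

/-- the logarithm is small -/
theorem log_small (q : ℕ) (c : ℝ) (hc : 0 < c) : ∃ X₁ : ℕ, ∀ X : ℕ, X₁ ≤ X →
    Real.log X ^ q ≤ c * (X : ℝ) ^ (1 / 2 : ℝ) := by
  have h1 := (isLittleO_log_rpow_rpow_atTop (s := 1 / 2) (q : ℝ) (by norm_num)).bound hc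
  have h2 := tendsto_natCast_atTop_atTop (R := ℝ) |>.eventually h1
  obtain ⟨X₁, hX₁⟩ := Filter.eventually_atTop.1 h2
  refine ⟨max X₁ 1, fun X hX => ?_⟩
  have h3 := hX₁ X ((le_max_left _ _).trans hX)
  have h4 : (1 : ℝ) ≤ X := by exact_mod_cast (le_max_right _ _).trans hX
  rw [Real.norm_of_nonneg (by positivity : (0 : ℝ) ≤ (X : ℝ) ^ (1 / 2 : ℝ)),
    Real.norm_of_nonneg (Real.rpow_nonneg (Real.log_nonneg h4) _), Real.rpow_natCast] at h3
  exact h3

open Classical in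
theorem t_POLY (hG : Pool.Agent.Y871.LW.S_GEN) : Pool.Agent.Y871.LW.S_POLY := by
  intro k q F hk hF ε hε
  obtain ⟨C, hC0, X₂, hVV⟩ := VV_le
  obtain ⟨e, he⟩ : ∃ e : ℕ, ∀ l, (F l).natDegree ≤ e :=
    ⟨univ.sup fun l => (F l).natDegree, fun l => le_sup (f := fun l => (F l).natDegree) (mem_univ l)⟩
  obtain ⟨p₀, hp₀⟩ : ∃ p₀ : ℕ, ∀ l, (F l).leadingCoeff.natAbs ≤ p₀ :=
    ⟨univ.sup fun l => (F l).leadingCoeff.natAbs,
      fun l => le_sup (f := fun l => (F l).leadingCoeff.natAbs) (mem_univ l)⟩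
  obtain ⟨δ, hδ⟩ : ∃ δ : ℝ, δ = ε ^ 2 / (2 * C ^ q) := ⟨_, rfl⟩
  have hδ0 : 0 < δ := by rw [hδ]; positivity
  obtain ⟨B, X₀, hGen⟩ := hG k q 1 e p₀ (1 / 2) δ (by norm_num) hδ0
  obtain ⟨X₁, hX₁⟩ := log_small q (ε ^ 2 / (6 * (q + 1))) (by positivity)
  refine ⟨B, max (max X₀ X₁) (max X₂ 3), fun X H m hX hH A Xs hXs => ?_⟩
  have hX0 : X₀ ≤ X := by omega
  have hX1 : X₁ ≤ X := by omega
  have hX2 : X₂ ≤ X := by omega
  have hX3 : 3 ≤ X := by omega
  by_contra hcon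
  push Not at hcon
  obtain ⟨box, hbox⟩ : ∃ box, box = Fintype.piFinset fun l => Ioc (A l) (A l + Xs l) := ⟨_, rfl⟩
  obtain ⟨t, ht⟩ : ∃ t : ℝ, t = ε * H / Real.log X ^ q := ⟨_, rfl⟩
  obtain ⟨D, hD⟩ : ∃ D : ℝ, D = Real.log X ^ B := ⟨_, rfl⟩
  rw [← hbox, ← ht, ← hD] at hcon
  generalize hbad : box.filter (fun a => ¬ Cov (pts F a m H) k D t) = bad at hcon
  have hbadm : ∀ a, a ∈ bad ↔ a ∈ box ∧ ¬ Cov (pts F a m H) k D t := by
    intro a
    rw [← hbad, mem_filter]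
  have hex : ∀ a : Fin q → ℤ, ∃ ST : Finset ℕ × Finset ℕ, a ∈ bad → ST.1 ⊆ pts F a m H ∧
      ST.2 ⊆ ST.1 ∧ (∀ n ∈ ST.2, ¬ InAP ST.1 k D n) ∧ t < ST.2.card := by
    intro a
    by_cases ha : a ∈ bad
    · have h1 := ((hbadm a).1 ha).2
      unfold Cov at h1
      push Not at h1
      obtain ⟨S, hS, T, hT, h2, h3⟩ := h1
      exact ⟨(S, T), fun _ => ⟨hS, hT, h2, h3⟩⟩
    · exact ⟨(∅, ∅), fun h => absurd h ha⟩
  choose ST hST using hex
  -- the polynomials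
  obtain ⟨c1, hc1⟩ : ∃ c1 : Fin q → ℕ, ∀ l, ∀ i ∈ Icc 1 (2 * H),
      0 ≤ (F l).eval ((m + i : ℕ) : ℤ) + c1 l := by
    refine ⟨fun l => ∑ i ∈ Icc 1 (2 * H), ((F l).eval ((m + i : ℕ) : ℤ)).natAbs, fun l i hi => ?_⟩
    have h1 := single_le_sum (f := fun i => ((F l).eval ((m + i : ℕ) : ℤ)).natAbs)
      (fun _ _ => Nat.zero_le _) hi
    have h2 : (((F l).eval ((m + i : ℕ) : ℤ)).natAbs : ℤ) ≤
      ((∑ i ∈ Icc 1 (2 * H), ((F l).eval ((m + i : ℕ) : ℤ)).natAbs : ℕ) : ℤ) := by exact_mod_cast h1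
    change 0 ≤ (F l).eval ((m + i : ℕ) : ℤ) +
      ((∑ i ∈ Icc 1 (2 * H), ((F l).eval ((m + i : ℕ) : ℤ)).natAbs : ℕ) : ℤ)
    omega
  obtain ⟨φ, hφd⟩ : ∃ φ : Fin q → ℕ → ℕ, φ = fun l i => ((F l).eval ((m + i : ℕ) : ℤ) + c1 l).toNat :=
    ⟨_, rfl⟩
  have hφ : ∀ l, ∀ i ∈ Icc 1 (2 * H), (φ l i : ℤ) = (F l).eval ((m + i : ℕ) : ℤ) + c1 l := by
    intro l i hi
    rw [hφd]
    exact Int.toNat_of_nonneg (hc1 l i hi)
  obtain ⟨Z, hZ⟩ : ∃ Z : Fin q → ℕ → Finset ℕ, ∀ l p, Z l p = {(((c1 l : ℤ) - A l) % p).toNat} :=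
    ⟨fun l p => {(((c1 l : ℤ) - A l) % p).toNat}, fun _ _ => rfl⟩
  obtain ⟨y, hy⟩ : ∃ y : ℕ, y = ⌊(X : ℝ) ^ (1 / 2 : ℝ)⌋₊ := ⟨_, rfl⟩
  obtain ⟨U, hU⟩ : ∃ U : (Fin q → ℤ) → Finset ℕ, U = fun a =>
    (ST a).2.filter (fun n : ℕ => ∀ l, y < ((F l).eval (n : ℤ) + a l).natAbs) := ⟨_, rfl⟩
  have hUm : ∀ a ∈ bad, ∀ n ∈ U a, (∀ l, A l < a l ∧ a l ≤ A l + Xs l) ∧ m < n ∧ n ≤ m + H ∧
      (∀ l, ((F l).eval (n : ℤ) + a l).natAbs.Prime ∧ y < ((F l).eval (n : ℤ) + a l).natAbs) ∧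
      n ∈ (ST a).2 := by
    intro a ha n hn
    rw [hU] at hn
    simp only at hn
    rw [mem_filter] at hn
    obtain ⟨h1, h2⟩ := hn
    obtain ⟨h3, h4, -, -⟩ := hST a ha
    have h5 := h3 (h4 h1)
    unfold pts at h5
    rw [mem_filter, mem_Ioc] at h5
    have h6 := ((hbadm a).1 ha).1
    rw [hbox, Fintype.mem_piFinset] at h6
    exact ⟨fun l => mem_Ioc.1 (h6 l), h5.1.1, h5.1.2, fun l => ⟨h5.2 l, h2 l⟩, h1⟩
  obtain ⟨g, hg⟩ : ∃ g : (Σ _ : Fin q → ℤ, ℕ) → (Fin q → ℕ) × ℕ,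
    g = fun t => (fun l => (t.1 l - A l).toNat, t.2 - m) := ⟨_, rfl⟩
  obtain ⟨T, hT⟩ : ∃ T : Finset ((Fin q → ℕ) × ℕ), T = (bad.sigma U).image g := ⟨_, rfl⟩
  have hinj : Set.InjOn g (bad.sigma U : Set (Σ _ : Fin q → ℤ, ℕ)) := by
    rintro ⟨a, n⟩ h1 ⟨a', n'⟩ h2 h3
    rw [mem_coe, mem_sigma] at h1 h2
    obtain ⟨u1, u2, -, -, -⟩ := hUm a h1.1 n h1.2
    obtain ⟨v1, v2, -, -, -⟩ := hUm a' h2.1 n' h2.2
    rw [hg] at h3
    simp only [Prod.mk.injEq] at h3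
    obtain ⟨h4, h5⟩ := h3
    obtain rfl : a = a' := by
      funext l
      have h6 := congrFun h4 l
      have := u1 l
      have := v1 l
      omega
    obtain rfl : n = n' := by omega
    rfl
  have hTcard : T.card = ∑ a ∈ bad, (U a).card := by
    rw [hT, card_image_of_injOn hinj, card_sigma]
  obtain ⟨L, hL⟩ : ∃ L : ℕ, L = ∑ a ∈ box,
      ((Ioc m (m + H)).filter (fun n : ℕ => ∃ l, ((F l).eval (n : ℤ) + a l).natAbs ≤ y)).card :=
    ⟨_, rfl⟩
  have hsum : ∑ a ∈ bad, (ST a).2.card ≤ T.card + L := by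
    rw [hTcard, hL]
    refine (sum_le_sum (g := fun a => (U a).card + ((Ioc m (m + H)).filter (fun n : ℕ =>
      ∃ l, ((F l).eval (n : ℤ) + a l).natAbs ≤ y)).card) fun a ha => ?_).trans ?_
    · rw [hU]
      simp only
      rw [← card_filter_add_card_filter_not (s := (ST a).2)
        (fun n : ℕ => ∀ l, y < ((F l).eval (n : ℤ) + a l).natAbs)]
      refine Nat.add_le_add_left (card_le_card ?_) _
      intro n hn
      rw [mem_filter] at hn ⊢
      obtain ⟨h3, h4, -, -⟩ := hST a ha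
      have h5 := h3 (h4 hn.1)
      unfold pts at h5
      refine ⟨(mem_filter.1 h5).1, ?_⟩
      have h6 := hn.2
      push Not at h6
      exact h6
    · rw [sum_add_distrib]
      refine Nat.add_le_add_left (sum_le_sum_of_subset ?_) _
      intro a ha
      exact ((hbadm a).1 ha).1
  have hLX : X * L ≤ H * (q * ((2 * y + 1) * ∏ l, Xs l)) := by
    have := small_all A Xs X y hXs (Ioc m (m + H)) (fun l n => (F l).eval (n : ℤ))
    rw [Nat.card_Ioc, Nat.add_sub_cancel_left, ← hbox, ← hL] at this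
    exact this
  -- real inequalities
  obtain ⟨P, hP⟩ : ∃ P : ℝ, P = ∏ l, (Xs l : ℝ) := ⟨_, rfl⟩
  have hP0 : 0 ≤ P := by rw [hP]; positivity
  rw [← hP] at hcon
  have hXr : (3 : ℝ) ≤ X := by exact_mod_cast hX3
  have hlX : 0 < Real.log X := Real.log_pos (by linarith)
  obtain ⟨Λ, hΛ⟩ : ∃ Λ : ℝ, Λ = Real.log X ^ q := ⟨_, rfl⟩
  have hΛ0 : 0 < Λ := by rw [hΛ]; positivity
  obtain ⟨s, hs⟩ : ∃ s : ℝ, s = (X : ℝ) ^ (1 / 2 : ℝ) := ⟨_, rfl⟩
  have hs1 : 1 ≤ s := by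
    rw [hs]
    exact Real.one_le_rpow (by linarith) (by norm_num)
  have hss : s * s = X := by
    rw [hs, ← Real.rpow_add (by linarith)]
    norm_num
  have hys : (y : ℝ) ≤ s := by
    rw [hy, ← hs]
    exact Nat.floor_le (by linarith)
  have hΛs : Λ ≤ ε ^ 2 / (6 * (q + 1)) * s := by
    rw [hΛ, hs]
    exact hX₁ X hX1
  have hLr : (X : ℝ) * L ≤ H * (q * ((2 * y + 1) * P)) := by
    rw [hP]
    exact_mod_cast hLX
  have hH0 : (0 : ℝ) ≤ H := Nat.cast_nonneg _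
  have hL0 : (0 : ℝ) ≤ L := Nat.cast_nonneg _
  have hq0 : (0 : ℝ) ≤ q := Nat.cast_nonneg _
  have hLs : s * L ≤ 3 * (H * q * P) := by
    have h1 : s * (s * L) ≤ s * (3 * (H * q * P)) := by
      calc s * (s * L) = X * L := by rw [← hss]; ring
        _ ≤ H * (q * ((2 * y + 1) * P)) := hLr
        _ ≤ H * (q * ((3 * s) * P)) := by gcongr; linarith
        _ = _ := by ring
    exact le_of_mul_le_mul_left h1 (by linarith)
  have hLΛ : L * Λ ≤ ε ^ 2 / 2 * (H * P) := by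
    calc L * Λ ≤ L * (ε ^ 2 / (6 * (q + 1)) * s) := mul_le_mul_of_nonneg_left hΛs hL0
      _ = ε ^ 2 / (6 * (q + 1)) * (s * L) := by ring
      _ ≤ ε ^ 2 / (6 * (q + 1)) * (3 * (H * q * P)) :=
        mul_le_mul_of_nonneg_left hLs (by positivity)
      _ = ε ^ 2 / 2 * (H * P) * (q / (q + 1)) := by
        field_simp
        ring
      _ ≤ ε ^ 2 / 2 * (H * P) * 1 := by
        refine mul_le_mul_of_nonneg_left ?_ (by positivity)
        rw [div_le_one (by linarith)]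
        linarith
      _ = _ := mul_one _
  have ht0 : 0 ≤ t := by rw [ht]; positivity
  have htΛ : t * Λ = ε * H := by
    rw [ht, ← hΛ]
    field_simp
  have h1 : ε * P * t ≤ T.card + L := by
    have h2 : (bad.card : ℝ) * t ≤ ∑ a ∈ bad, ((ST a).2.card : ℝ) := by
      rw [← nsmul_eq_mul]
      exact card_nsmul_le_sum _ _ _ fun a ha => (hST a ha).2.2.2.le
    have h3 : ∑ a ∈ bad, ((ST a).2.card : ℝ) ≤ T.card + L := by exact_mod_cast hsum
    have h4 : ε * P * t ≤ bad.card * t := mul_le_mul_of_nonneg_right hcon.le ht0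
    linarith
  have h2 : ε ^ 2 / 2 * (H * P) ≤ T.card * Λ := by
    have h3 : ε * P * t * Λ ≤ (T.card + L) * Λ := mul_le_mul_of_nonneg_right h1 hΛ0.le
    have h4 : ε * P * t * Λ = ε ^ 2 * (H * P) := by
      rw [mul_assoc, htΛ]
      ring
    nlinarith
  have hprod : δ * (∏ l, (Xs l : ℝ)) * H * ∏ l, VV (Z l) 0 ⌊(X : ℝ) ^ (1 / 2 : ℝ)⌋₊ ≤ T.card := by
    rw [← hP]
    have h3 : ∏ l, VV (Z l) 0 ⌊(X : ℝ) ^ (1 / 2 : ℝ)⌋₊ ≤ (C / Real.log X) ^ q := by
      have h4 : ∀ l, 0 ≤ VV (Z l) 0 ⌊(X : ℝ) ^ (1 / 2 : ℝ)⌋₊ ∧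
          VV (Z l) 0 ⌊(X : ℝ) ^ (1 / 2 : ℝ)⌋₊ ≤ C / Real.log X := by
        intro l
        refine hVV X hX2 (Z l) fun p => ?_
        rw [hZ, card_singleton]
      refine (prod_le_prod (fun l _ => (h4 l).1) (fun l _ => (h4 l).2)).trans_eq ?_
      rw [prod_const, card_univ, Fintype.card_fin]
    calc δ * P * H * ∏ l, VV (Z l) 0 ⌊(X : ℝ) ^ (1 / 2 : ℝ)⌋₊ ≤
          δ * P * H * (C / Real.log X) ^ q := mul_le_mul_of_nonneg_left h3 (by positivity)
      _ = ε ^ 2 / 2 * (H * P) / Λ := by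
        rw [hδ, hΛ, div_pow]
        field_simp
      _ ≤ T.card := by
        rw [div_le_iff₀ hΛ0]
        exact h2
  obtain ⟨x, b, d, hd1, hd2, hxb⟩ := hGen X H hX0 hH (fun _ => 0) Xs hXs Z
    (by
      intro l p hp _
      rw [hZ, card_singleton]
      refine ⟨le_rfl, hp.one_lt, fun c hc => ?_⟩
      rw [mem_singleton] at hc
      have h3 := Int.emod_nonneg ((c1 l : ℤ) - A l) (show (p : ℤ) ≠ 0 by exact_mod_cast hp.ne_zero)
      have h4 := Int.emod_lt_of_pos ((c1 l : ℤ) - A l) (show (0 : ℤ) < p by exact_mod_cast hp.pos)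
      omega)
    φ
    (fun l M => phi_modEq (F l) m (c1 l) (2 * H) (φ l) (hφ l) M)
    (fun l p hp hp0 c => (roots_le (F l) (hF l) p hp ((hp₀ l).trans_lt hp0) m (c1 l) (2 * H) (φ l)
      (hφ l) c).trans (he l))
    T
    (by
      intro t' ht'
      rw [hT, mem_image] at ht'
      obtain ⟨⟨a, n⟩, han, rfl⟩ := ht'
      rw [mem_sigma] at han
      obtain ⟨u1, u2, u3, -, -⟩ := hUm a han.1 n han.2
      rw [hg]
      simp only
      refine ⟨?_, by omega, by omega⟩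
      unfold bx
      rw [Fintype.mem_piFinset]
      intro l
      rw [mem_Ioc]
      change 0 < (a l - A l).toNat ∧ (a l - A l).toNat ≤ 0 + Xs l
      have h3 : A l < a l ∧ a l ≤ A l + Xs l := u1 l
      omega)
    (by
      intro t' ht' l p hp hpX
      rw [hT, mem_image] at ht'
      obtain ⟨⟨a, n⟩, han, rfl⟩ := ht'
      rw [mem_sigma] at han
      obtain ⟨u1, u2, u3, u4, -⟩ := hUm a han.1 n han.2
      rw [hg]
      simp only
      rw [hZ, mem_singleton]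
      intro hcon2
      have h3 := Int.emod_nonneg ((c1 l : ℤ) - A l) (show (p : ℤ) ≠ 0 by exact_mod_cast hp.ne_zero)
      have h4 := hφ l (n - m) (mem_Icc.2 ⟨by omega, by omega⟩)
      rw [show m + (n - m) = n by omega] at h4
      have h5 : ((((a l - A l).toNat + φ l (n - m)) % p : ℕ) : ℤ) = ((c1 l : ℤ) - A l) % p := by
        rw [hcon2]
        exact Int.toNat_of_nonneg h3
      push_cast at h5
      rw [h4, Int.toNat_of_nonneg (by have := u1 l; omega)] at h5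
      have h6 : (p : ℤ) ∣ (a l - A l + ((F l).eval (n : ℤ) + c1 l)) - ((c1 l : ℤ) - A l) :=
        Int.ModEq.dvd (Int.ModEq.symm h5)
      have h7 : (a l - A l + ((F l).eval (n : ℤ) + c1 l)) - ((c1 l : ℤ) - A l) =
        (F l).eval (n : ℤ) + a l := by ring
      rw [h7] at h6
      have h8 := Int.natAbs_dvd_natAbs.2 h6
      rw [Int.natAbs_natCast] at h8
      have h9 := (Nat.prime_dvd_prime_iff_eq hp (u4 l).1).1 h8
      have h10 : p ≤ y := by
        rw [hy]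
        exact Nat.le_floor hpX
      have h11 := (u4 l).2
      omega)
    hprod
  -- the progression
  have hpt : ∀ j < k, (fun l => (x l : ℤ) + A l) ∈ bad ∧
      m + b + j * d ∈ (ST (fun l => (x l : ℤ) + A l)).2 := by
    intro j hj
    have h3 := hxb j hj
    rw [hT, mem_image] at h3
    obtain ⟨⟨a, n⟩, han, hgg⟩ := h3
    rw [mem_sigma] at han
    obtain ⟨u1, u2, u3, -, u5⟩ := hUm a han.1 n han.2
    simp only at u1 u2 u3 u5 han
    rw [hg] at hgg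
    simp only [Prod.mk.injEq] at hgg
    obtain ⟨h4, h5⟩ := hgg
    have h6 : (fun l => (x l : ℤ) + A l) = a := by
      funext l
      have h7 := congrFun h4 l
      have := u1 l
      omega
    rw [h6, show m + b + j * d = n by omega]
    exact ⟨han.1, u5⟩
  obtain ⟨h3, h4⟩ := hpt 0 (by omega)
  obtain ⟨-, h5, h6, -⟩ := hST _ h3
  refine h6 _ h4 ⟨m + b, d, hd1, by rw [hD]; exact hd2, fun j hj => h5 (hpt j hj).2, 0, by omega, rfl⟩

end Pool.Agent.Y497.LW
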